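import Pool.Agent.Helper17.RS.Sheet

/-! Project RS, row DETC. -/

set_option autoImplicit false

namespace Pool.Agent.Helper20.RS

open Polynomial Pool.Helper17.RS

theorem st_DETC : ST_DETC := by
  classical
  intro s τ F hτ hF
  have hp : Fact (Nat.Prime 13) := ⟨by norm_num⟩
  set n : ℤ[X] := ∏ i : Fin s, (X - C (τ i)) with hn
  have hnm : n.Monic := monic_prod_of_monic _ _ fun i _ => monic_X_sub_C (τ i)
  have hnd : n.natDegree = s := by
    rw [hn, natDegree_prod_of_monic _ _ fun i _ => monic_X_sub_C (τ i)]
    simp only [natDegree_X_sub_C]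
    simp
  have hn1 : n.degree = s := by
    rw [degree_eq_natDegree hnm.ne_zero, hnd]
  have hnz : ∀ i, n.eval (τ i) = 0 := fun i => by
    rw [hn, eval_prod]
    exact Finset.prod_eq_zero (Finset.mem_univ i) (by simp)
  set R : Fin s → ℤ[X] := fun j => F j %ₘ n with hR
  have hRd : ∀ j, (R j).degree < s := fun j => by
    rw [← hn1]
    exact degree_modByMonic_lt _ hnm
  have hdiv : ∀ j, R j + n * (F j /ₘ n) = F j := fun j => modByMonic_add_div (F j) n
  have hev : ∀ i j, (F j).eval (τ i) = (R j).eval (τ i) := fun i j => by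
    have h := congrArg (fun P => P.eval (τ i)) (hdiv j)
    simp only [eval_add, eval_mul, hnz i, zero_mul, add_zero] at h
    exact h.symm
  have hsum : ∀ i j, (R j).eval (τ i) = ∑ k : Fin s, τ i ^ (k : ℕ) * (R j).coeff k := by
    intro i j
    have h1 : (R j).natDegree < s ∨ R j = 0 := by
      by_cases h0 : R j = 0
      · exact Or.inr h0
      · left
        rw [← Nat.cast_lt (α := WithBot ℕ), ← degree_eq_natDegree h0]
        exact hRd j
    rw [Finset.sum_congr rfl fun k _ => mul_comm _ _,
      Fin.sum_univ_eq_sum_range (fun k => (R j).coeff k * τ i ^ k) s]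
    rcases h1 with h1 | h1
    · exact eval_eq_sum_range' h1 _
    · simp [h1]
  refine ⟨Matrix.det (Matrix.of fun (k j : Fin s) => (R j).coeff k), ?_, ?_⟩
  · intro h
    have h1 : ((Matrix.det (Matrix.of fun (k j : Fin s) => (R j).coeff k) : ℤ) : ZMod 13) = 0 :=
      (ZMod.intCast_zmod_eq_zero_iff_dvd _ 13).2 (by exact_mod_cast h)
    have hmapn : n.map (Int.castRingHom (ZMod 13)) = X ^ s := by
      rw [hn, Polynomial.map_prod]
      have : ∀ i ∈ (Finset.univ : Finset (Fin s)),
          (X - C (τ i)).map (Int.castRingHom (ZMod 13)) = X := by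
        intro i _
        have h0 : ((τ i : ℤ) : ZMod 13) = 0 :=
          (ZMod.intCast_zmod_eq_zero_iff_dvd _ 13).2 (by exact_mod_cast hτ i)
        rw [Polynomial.map_sub, map_X, map_C, eq_intCast, h0, C_0, sub_zero]
      rw [Finset.prod_congr rfl this]
      simp
    have hco : ∀ (k j : Fin s), (((R j).coeff k : ℤ) : ZMod 13) = (((F j).coeff k : ℤ) : ZMod 13) := by
      intro k j
      have h2 := congrArg (fun P => (P.map (Int.castRingHom (ZMod 13))).coeff k) (hdiv j)
      simp only [Polynomial.map_add, Polynomial.map_mul, hmapn, coeff_add, coeff_map,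
        coeff_X_pow_mul', eq_intCast] at h2
      rw [if_neg (by have := k.2; omega), add_zero] at h2
      exact h2
    have h3 : ((Matrix.det (Matrix.of fun (k j : Fin s) => (R j).coeff k) : ℤ) : ZMod 13) =
        Matrix.det (Matrix.of fun (k j : Fin s) => (((F j).coeff k : ℤ) : ZMod 13)) := by
      have h4 := (Int.castRingHom (ZMod 13)).map_det
        (Matrix.of fun (k j : Fin s) => (R j).coeff k)
      refine Eq.trans h4 ?_
      congr 1
      ext k j
      exact hco k j
    rw [h3, Matrix.det_of_lowerTriangular] at h1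
    · rw [Finset.prod_eq_zero_iff] at h1
      obtain ⟨j, _, hj⟩ := h1
      exact (hF j).2 (by
        have := (ZMod.intCast_zmod_eq_zero_iff_dvd _ 13).1 hj
        exact_mod_cast this)
    · intro k j hkj
      have hkj' : k < j := hkj
      have h4 := (hF j).1 k hkj'
      exact (ZMod.intCast_zmod_eq_zero_iff_dvd _ 13).2 (by exact_mod_cast h4)
  · have h5 : (Matrix.of fun (i j : Fin s) => (F j).eval (τ i)) =
        Matrix.vandermonde τ * Matrix.of fun (k j : Fin s) => (R j).coeff k := by
      ext i j
      rw [Matrix.mul_apply]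
      simp only [Matrix.of_apply, Matrix.vandermonde_apply]
      rw [hev, hsum]
    rw [h5, Matrix.det_mul, Matrix.det_vandermonde, mul_comm]

end Pool.Agent.Helper20.RS
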